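import Pool.Agent.ATB.Stmts

set_option autoImplicit false

/-!
# Squad ATB, row DQS: the differential of the graded pieces
-/

namespace Pool.Agent.ATB.H69

open scoped TensorProduct
open Pool.Agent.ATB

section lemmas
variable {K : Type} [Field K] {n : ℕ} {k : ℤ} {Z : Multiset (Fin n → K)} {c : Fin n → K}
  {i : ℤ} {r : ℕ} {H : Submodule K (Fin n → K)}

theorem om_le_qm : Om k Z i ≤ Qm k Z c r i := le_sup_left

theorem pm_le_qm (hc : c ∉ H) (hr : r ≤ Module.finrank K H) :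
    (OmH (k + 1) Z H i).map (pm (lin c)) ≤ Qm k Z c r i :=
  le_sup_of_le_right (le_iSup₂_of_le H ⟨hc, hr⟩ le_sup_left)

theorem wl_le_qm (hc : c ∉ H) (hr : r ≤ Module.finrank K H) :
    (OmH (k + 1) Z H (i - 1)).map (wl c) ≤ Qm k Z c r i :=
  le_sup_of_le_right (le_iSup₂_of_le H ⟨hc, hr⟩ le_sup_right)

theorem wl_le_qm' (hc : c ∉ H) (hr : Module.finrank K H = r) :
    (OmH (k + 1) Z H (i - 1)).map (wl c) ≤ Qm' k Z c r i :=
  le_sup_of_le_right (le_iSup₂_of_le H ⟨hc, hr⟩ le_rfl)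

theorem qm_mono {r r' : ℕ} (h : r ≤ r') : Qm k Z c r' i ≤ Qm k Z c r i :=
  sup_le_sup_left (iSup₂_le fun H' hH' =>
    le_iSup₂_of_le (f := fun (H : Submodule K (Fin n → K)) (_ : c ∉ H ∧ r ≤ Module.finrank K H) =>
      ((OmH (k + 1) Z H i).map (pm (lin c)) ⊔ (OmH (k + 1) Z H (i - 1)).map (wl c)))
      H' ⟨hH'.1, h.trans hH'.2⟩ le_rfl) _

theorem qm_le_qm' : Qm k Z c (r + 1) i ≤ Qm' k Z c r i := le_sup_left

theorem qm'_le_qm : Qm' k Z c r i ≤ Qm k Z c r i :=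
  sup_le (qm_mono (Nat.le_succ r)) (iSup₂_le fun _ hH => wl_le_qm hH.1 hH.2.ge)

/-- the third part -/
theorem three (dif : DIFStmt) (clo : CLOStmt) (α : AA K n) (hr : Module.finrank K H = r)
    (hα : α ∈ Cc (k + 1) Z H i) :
    dd (wl c (pm (prodm (out Z H)) α)) + wl c (pm (prodm (out Z H)) (dd α)) ∈
      Qm k Z c (r + 1) (i + 2) := by
  obtain ⟨-, -, -, d4, -, -, -⟩ := dif K n
  obtain ⟨-, -, -, c4, -⟩ := clo K n (k + 1) Z
  obtain ⟨-, -, -, -, e5, -, -, e8, -⟩ := clo K n k Z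
  have hR := c4 H i α hα
  rw [hr] at hR
  have hle : (⨆ (H' : Submodule K (Fin n → K)) (_ : H ≤ H' ∧ Module.finrank K H' = r + 1),
      OmH (k + 1) Z H' (i + 1)) ≤ (Qm k Z c (r + 1) (i + 2)).comap (wl c) := by
    refine iSup₂_le fun H' hH' z hz => ?_
    rw [Submodule.mem_comap]
    by_cases hcH : c ∈ H'
    · have h1 := e8 H' c (i + 1) z hcH hz
      have e : i + 1 + 1 = i + 2 := by ring
      rw [e] at h1
      exact om_le_qm (e5 H' (i + 2) h1)
    · have h1 : wl c z ∈ (OmH (k + 1) Z H' (i + 2 - 1)).map (wl c) := by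
        refine ⟨z, ?_, rfl⟩
        have e : i + 2 - 1 = i + 1 := by ring
        rw [e]
        exact hz
      exact wl_le_qm hcH hH'.2.ge h1
  have h2 := hle hR
  rw [Submodule.mem_comap, map_sub] at h2
  have h3 : dd (wl c (pm (prodm (out Z H)) α)) + wl c (pm (prodm (out Z H)) (dd α)) =
      -(wl c (dd (pm (prodm (out Z H)) α)) - wl c (pm (prodm (out Z H)) (dd α))) := by
    rw [d4]
    abel
  rw [h3]
  exact neg_mem h2

/-- the fourth part -/
theorem four (dif : DIFStmt) (clo : CLOStmt) (cin : CINStmt) (α : AA K n) (hc : c ∉ H)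
    (hr : Module.finrank K H = r) (hα : α ∈ Cc (k + 1) Z H i) :
    dd (pm (lin c) (pm (prodm (out Z H)) α)) - pm (lin c) (pm (prodm (out Z H)) (dd α)) ∈
      Qm' k Z c r (i + 1) := by
  obtain ⟨-, -, d3, -, -, -, -⟩ := dif K n
  obtain ⟨-, -, c3, c4, -⟩ := clo K n (k + 1) Z
  have hR := c4 H i α hα
  rw [hr] at hR
  have hle : (⨆ (H' : Submodule K (Fin n → K)) (_ : H ≤ H' ∧ Module.finrank K H' = r + 1),
      OmH (k + 1) Z H' (i + 1)) ≤ (Qm' k Z c r (i + 1)).comap (pm (lin c)) := by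
    refine iSup₂_le fun H' hH' => ?_
    by_cases hcH : c ∈ H'
    · unfold OmH
      rw [Submodule.span_le]
      rintro x ⟨B, D, ω, hω, hBD, hsp, hcard, rfl⟩
      rw [← hsp] at hω
      have h1 := cin K n k Z B D c (i + 1) ω hBD hcard hω (by rw [hsp]; exact hcH)
      refine (sup_le (om_le_qm.trans qm_le_qm') (iSup₂_le fun H'' hH'' => ?_)) h1
      refine wl_le_qm' hH''.1 ?_
      have h2 := hH''.2
      rw [hsp, hH'.2] at h2
      omega
    · intro z hz
      exact qm_le_qm' (pm_le_qm hcH hH'.2.ge ⟨z, hz, rfl⟩)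
  have h2 := hle hR
  rw [Submodule.mem_comap, map_sub] at h2
  have h3 : dd (pm (lin c) (pm (prodm (out Z H)) α)) - pm (lin c) (pm (prodm (out Z H)) (dd α)) =
      wl c (pm (prodm (out Z H)) α) + (pm (lin c) (dd (pm (prodm (out Z H)) α)) -
        pm (lin c) (pm (prodm (out Z H)) (dd α))) := by
    rw [d3]
    abel
  rw [h3]
  refine add_mem ?_ h2
  have h4 : wl c (pm (prodm (out Z H)) α) ∈ (OmH (k + 1) Z H (i + 1 - 1)).map (wl c) := by
    refine ⟨pm (prodm (out Z H)) α, ?_, rfl⟩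
    have e : i + 1 - 1 = i := by ring
    rw [e, c3]
    exact ⟨α, hα, rfl⟩
  exact wl_le_qm' hc hr h4

/-- the `wl` part of the differential -/
theorem wl_part (dif : DIFStmt) (clo : CLOStmt) (hr : Module.finrank K H = r)
    {T : Submodule K (AA K n)} (hT : Qm k Z c (r + 1) (i + 1) ≤ T)
    (hT' : (OmH (k + 1) Z H (i + 1 - 1)).map (wl c) ≤ T) :
    (OmH (k + 1) Z H (i - 1)).map (wl c) ≤ T.comap dd := by
  obtain ⟨-, c2, c3, -⟩ := clo K n (k + 1) Z
  rintro _ ⟨y, hy, rfl⟩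
  have hy' := hy
  rw [SetLike.mem_coe, c3] at hy'
  obtain ⟨α, hα, rfl⟩ := hy'
  rw [Submodule.mem_comap]
  have h1 := three dif clo (c := c) α hr hα
  have e : i - 1 + 2 = i + 1 := by ring
  rw [e] at h1
  have h2 : wl c (pm (prodm (out Z H)) (dd α)) ∈ T := by
    refine hT' ⟨pm (prodm (out Z H)) (dd α), ?_, rfl⟩
    rw [SetLike.mem_coe, c3]
    refine ⟨dd α, ?_, rfl⟩
    have h3 := c2 H (i - 1) α hα
    have e2 : i - 1 + 1 = i + 1 - 1 := by ring
    rw [e2] at h3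
    exact h3
  have h4 := sub_mem (hT h1) h2
  rwa [add_sub_cancel_right] at h4

theorem one (dif : DIFStmt) (clo : CLOStmt) (cin : CINStmt) :
    ∀ x ∈ Qm k Z c r i, dd x ∈ Qm k Z c r (i + 1) := by
  obtain ⟨c1, -⟩ := clo K n k Z
  obtain ⟨-, c2, c3, -⟩ := clo K n (k + 1) Z
  have hle : Qm k Z c r i ≤ (Qm k Z c r (i + 1)).comap dd := by
    refine sup_le (fun x hx => ?_) (iSup₂_le fun H hH => sup_le ?_ ?_)
    · exact om_le_qm (c1 i x hx)
    · rintro _ ⟨y, hy, rfl⟩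
      rw [SetLike.mem_coe, c3] at hy
      obtain ⟨α, hα, rfl⟩ := hy
      rw [Submodule.mem_comap]
      have h1 := four dif clo cin (c := c) α hH.1 rfl hα
      have h2 := qm_mono hH.2 (qm'_le_qm h1)
      have h3 : pm (lin c) (pm (prodm (out Z H)) (dd α)) ∈ Qm k Z c r (i + 1) := by
        refine pm_le_qm hH.1 hH.2 ⟨pm (prodm (out Z H)) (dd α), ?_, rfl⟩
        rw [SetLike.mem_coe, c3]
        exact ⟨dd α, c2 H i α hα, rfl⟩
      have h4 := add_mem h2 h3
      rwa [sub_add_cancel] at h4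
    · exact wl_part dif clo rfl (qm_mono (hH.2.trans (Nat.le_succ _))) (wl_le_qm hH.1 hH.2)
  exact fun x hx => hle hx

theorem two (dif : DIFStmt) (clo : CLOStmt) (cin : CINStmt) :
    ∀ x ∈ Qm' k Z c r i, dd x ∈ Qm' k Z c r (i + 1) := by
  have hle : Qm' k Z c r i ≤ (Qm' k Z c r (i + 1)).comap dd := by
    refine sup_le (fun x hx => ?_) (iSup₂_le fun H hH => ?_)
    · exact qm_le_qm' (one dif clo cin x hx)
    · exact wl_part dif clo hH.2 qm_le_qm' (wl_le_qm' hH.1 hH.2)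
  exact fun x hx => hle hx

end lemmas

/-- row DQS -/
theorem dqs (dif : DIFStmt) (clo : CLOStmt) (cin : CINStmt) : DQSStmt := by
  intro K _ n k Z c i r
  exact ⟨one dif clo cin, two dif clo cin, fun H α _ hr hα => three dif clo α hr hα,
    fun H α hc hr hα => four dif clo cin α hc hr hα⟩

end Pool.Agent.ATB.H69
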