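import Pool.Agent.ATB.Stmts3
import Pool.Agent.Helper69_ATB.FO2

set_option autoImplicit false

/-! Row FO3 of the squad ATB: `m` invertible matrices. -/

namespace Pool.Agent.ATB.H69F

open Matrix

theorem arith (p m n d X : ℕ) (hp : 1 ≤ p) (hpm : p ≤ m)
    (hg : (2 * p - 1) * ((n + 1) / 2) ≤ m * ((n + 1) / 2) + p) (hd : d ≤ n)
    (hX : m * n ≤ X + m * d) (hdn : d ≠ n) :
    (2 * p - 1) * n ≤ X + (2 * p - 1) * d + p ∨ p * n ≤ X + d + 1 := by
  obtain ⟨q, rfl⟩ : ∃ q, p = q + 1 := ⟨p - 1, by omega⟩
  obtain ⟨c, rfl⟩ : ∃ c, n = d + c := ⟨n - d, by omega⟩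
  have hc : 1 ≤ c := by omega
  have h1 : 2 * (q + 1) - 1 = 2 * q + 1 := by omega
  rw [h1] at hg ⊢
  obtain ⟨g, hgd⟩ : ∃ g, g = (d + c + 1) / 2 := ⟨_, rfl⟩
  rw [← hgd] at hg
  have h2 : d + c ≤ 2 * g := by omega
  have h3 : m * c ≤ X := by
    rw [Nat.mul_add] at hX
    omega
  rcases le_or_gt (2 * q + 1) m with h4 | h4
  · left
    have h5 : (2 * q + 1) * c ≤ m * c := Nat.mul_le_mul_right c h4
    rw [Nat.mul_add]
    omega
  · obtain ⟨t, ht⟩ : ∃ t, 2 * q + 1 = m + t := ⟨2 * q + 1 - m, by omega⟩
    have h5 : t * g ≤ q + 1 := by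
      rw [ht, Nat.add_mul] at hg
      omega
    rcases le_or_gt c g with h6 | h6
    · left
      have h7 : t * c ≤ t * g := Nat.mul_le_mul_left t h6
      rw [Nat.mul_add]
      have h8 : (2 * q + 1) * c = m * c + t * c := by rw [ht, Nat.add_mul]
      omega
    · right
      have h7 : t ≤ q := by omega
      zify at *
      nlinarith [mul_nonneg (show (0 : ℤ) ≤ (m : ℤ) - 1 by linarith)
        (show (0 : ℤ) ≤ (c : ℤ) - g - 1 by linarith), mul_nonneg (show (0 : ℤ) ≤ (q : ℤ) by positivity)
        (show (0 : ℤ) ≤ 2 * (g : ℤ) - (d + c) by linarith)]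

/-- row FO3 -/
theorem fo3 (h : GN3Stmt) : FO3Stmt := by
  intro p _ K _ _ n m hpm hmg B hB
  classical
  obtain ⟨f, hf, hp⟩ := h p K n (Fin m × Fin n) (Matrix.of fun r c => B c.1 r c.2) (fun U hU => by
    have hcard : Nat.card {c : Fin m × Fin n //
        (fun r => (Matrix.of fun r (c : Fin m × Fin n) => B c.1 r c.2) r c) ∉ U} =
        (Finset.univ.filter (fun c : Fin m × Fin n => (fun r => B c.1 r c.2) ∉ U)).card := by
      rw [Nat.card_eq_fintype_card, Fintype.card_subtype]
      rfl
    rw [hcard]
    have hsum : (Finset.univ.filter (fun c : Fin m × Fin n => (fun r => B c.1 r c.2) ∈ U)).card +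
        (Finset.univ.filter (fun c : Fin m × Fin n => (fun r => B c.1 r c.2) ∉ U)).card = m * n := by
      rw [Finset.card_filter_add_card_filter_not]
      simp
    have hle : (Finset.univ.filter (fun c : Fin m × Fin n => (fun r => B c.1 r c.2) ∈ U)).card ≤
        m * Module.finrank K U := by
      rw [Finset.card_eq_sum_card_fiberwise (f := Prod.fst) (t := Finset.univ)
        (fun _ _ => Finset.mem_coe.2 (Finset.mem_univ _))]
      calc _ ≤ ∑ _j : Fin m, Module.finrank K U := by
            refine Finset.sum_le_sum (fun j _ => ?_)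
            have hinj : ((Finset.univ.filter
                (fun c : Fin m × Fin n => (fun r => B c.1 r c.2) ∈ U)).filter
                (fun c => c.1 = j)).card ≤
                (Finset.univ.filter (fun i : Fin n => (fun r => B j r i) ∈ U)).card := by
              refine Finset.card_le_card_of_injOn Prod.snd (fun c hc => ?_) (fun c hc d hd hcd => ?_)
              · simp only [Finset.coe_filter, Finset.mem_filter, Finset.mem_univ, true_and,
                  Set.mem_setOf_eq] at hc ⊢
                obtain ⟨h1, h2⟩ := hc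
                rw [← h2]
                exact h1
              · simp only [Finset.coe_filter, Finset.mem_filter, Finset.mem_univ, true_and,
                  Set.mem_setOf_eq] at hc hd
                exact Prod.ext (hc.2.trans hd.2.symm) hcd
            refine hinj.trans (colCount (B j) (hB j) U _ (fun i hi => ?_))
            exact (Finset.mem_filter.1 hi).2
        _ = m * Module.finrank K U := by simp
    have hdim : Module.finrank K U ≤ n := by
      have := Submodule.finrank_le U
      rwa [Module.finrank_fin_fun] at this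
    have hne : Module.finrank K U ≠ n := by
      intro h0
      apply hU
      apply Submodule.eq_top_of_finrank_eq
      rw [h0, Module.finrank_fin_fun]
    exact arith p m n (Module.finrank K U) _ (Fact.out : p.Prime).one_lt.le hpm hmg hdim
      (by omega) hne)
  exact ⟨f, hf, hp⟩

end Pool.Agent.ATB.H69F
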