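import Pool.Agent.ATB.Stmts2

set_option autoImplicit false

/-! Row PCO of the squad ATB: coefficient of `∏ X^(p-1)` versus permanent. -/

namespace Pool.Agent.ATB.H69P

open Finset

/-- exponent of a map -/
noncomputable def ex {C : Type} [Fintype C] {n : ℕ} (φ : C → Fin n) : Fin n →₀ ℕ :=
  ∑ c, Finsupp.single (φ c) 1

theorem ex_apply {C : Type} [Fintype C] {n : ℕ} (φ : C → Fin n) (i : Fin n) :
    ex φ i = (univ.filter (fun c => φ c = i)).card := by
  classical
  rw [ex, Finsupp.finset_sum_apply, Finset.card_filter]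
  refine Finset.sum_congr rfl (fun c _ => ?_)
  rw [Finsupp.single_apply]

theorem prodm_expand {K : Type} [Field K] {n : ℕ} {C : Type} [Fintype C] [DecidableEq C]
    (M : Matrix (Fin n) C K) :
    prodm ((univ : Finset C).val.map (fun c r => M r c)) =
      ∑ φ : C → Fin n, MvPolynomial.monomial (ex φ) (∏ c, M (φ c) c) := by
  classical
  rw [prodm, Multiset.map_map]
  change ∏ c, lin (fun r => M r c) = _
  simp_rw [lin_apply]
  rw [Finset.prod_univ_sum, Fintype.piFinset_univ]
  refine sum_congr rfl (fun φ _ => ?_)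
  rw [ex, MvPolynomial.monomial_sum_index]
  simp_rw [MvPolynomial.smul_eq_C_mul]
  rw [Finset.prod_mul_distrib, map_prod]
  rfl

theorem lam_expand {K : Type} [Field K] {n : ℕ} {C : Type} [Fintype C] [DecidableEq C] (p : ℕ)
    (M : Matrix (Fin n) C K) :
    lam p (prodm ((univ : Finset C).val.map (fun c r => M r c))) =
      ∑ φ : C → Fin n, if ex φ = topx p n then ∏ c, M (φ c) c else 0 := by
  classical
  rw [lam, prodm_expand, MvPolynomial.coeff_sum]
  refine sum_congr rfl (fun φ _ => ?_)
  rw [MvPolynomial.coeff_monomial]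

theorem ex_perm {C : Type} [Fintype C] {n : ℕ} (φ : C → Fin n) (σ : Equiv.Perm C) :
    ex (fun c => φ (σ c)) = ex φ := by
  rw [ex, ex]
  exact Equiv.sum_comp σ (fun c => Finsupp.single (φ c) 1)

theorem card_snd (p n : ℕ) (i : Fin n) :
    (univ.filter (fun c : Fin (p - 1) × Fin n => c.2 = i)).card = p - 1 := by
  classical
  have : (univ.filter (fun c : Fin (p - 1) × Fin n => c.2 = i)) =
      (univ : Finset (Fin (p - 1))) ×ˢ {i} := by
    ext c
    simp only [mem_filter, mem_univ, true_and, mem_product, mem_singleton]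
  rw [this, card_product]
  simp

theorem ex_snd (p n : ℕ) : ex (fun c : Fin (p - 1) × Fin n => c.2) = topx p n := by
  ext i
  rw [ex_apply, card_snd]
  rfl

/-- a map with the right exponent comes from a permutation -/
theorem exists_perm (p n : ℕ) (φ : Fin (p - 1) × Fin n → Fin n) (h : ex φ = topx p n) :
    ∃ σ : Equiv.Perm (Fin (p - 1) × Fin n), ∀ c, (σ c).2 = φ c := by
  classical
  have hc : ∀ i : Fin n, Fintype.card {c // φ c = i} =
      Fintype.card {c : Fin (p - 1) × Fin n // c.2 = i} := by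
    intro i
    rw [Fintype.card_subtype, Fintype.card_subtype, card_snd, ← ex_apply, h]
    rfl
  have e : ∀ i : Fin n, {c // φ c = i} ≃ {c : Fin (p - 1) × Fin n // c.2 = i} :=
    fun i => Fintype.equivOfCardEq (hc i)
  refine ⟨(Equiv.sigmaFiberEquiv φ).symm.trans ((Equiv.sigmaCongrRight e).trans
    (Equiv.sigmaFiberEquiv (fun c : Fin (p - 1) × Fin n => c.2))), fun c => ?_⟩
  have := (e (φ c) ⟨c, rfl⟩).2
  exact this

theorem count_perm (p n : ℕ) (φ : Fin (p - 1) × Fin n → Fin n) :
    (univ.filter (fun σ : Equiv.Perm (Fin (p - 1) × Fin n) => (fun c => (σ c).2) = φ)).card =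
      if ex φ = topx p n then ((p - 1).factorial) ^ n else 0 := by
  classical
  split_ifs with h
  · obtain ⟨σ₀, hσ₀⟩ := exists_perm p n φ h
    have h1 : (univ.filter (fun σ : Equiv.Perm (Fin (p - 1) × Fin n) => (fun c => (σ c).2) = φ)).card =
        (univ.filter (fun τ : Equiv.Perm (Fin (p - 1) × Fin n) =>
          (fun c : Fin (p - 1) × Fin n => c.2) ∘ τ = (fun c => c.2))).card := by
      refine Finset.card_bij (fun σ _ => σ * σ₀⁻¹) ?_ ?_ ?_
      · intro σ hσ
        rw [mem_filter] at hσ ⊢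
        refine ⟨mem_univ _, ?_⟩
        funext c
        have h2 := congrFun hσ.2 (σ₀⁻¹ c)
        have h3 := hσ₀ (σ₀⁻¹ c)
        rw [show σ₀ (σ₀⁻¹ c) = c from σ₀.apply_symm_apply c] at h3
        change (σ (σ₀⁻¹ c)).2 = c.2
        rw [h3, ← h2]
      · intro σ _ τ _ hστ
        exact mul_right_cancel hστ
      · intro τ hτ
        rw [mem_filter] at hτ
        refine ⟨τ * σ₀, ?_, by simp⟩
        rw [mem_filter]
        refine ⟨mem_univ _, ?_⟩
        funext c
        have h2 := congrFun hτ.2 (σ₀ c)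
        change (τ (σ₀ c)).2 = φ c
        rw [← hσ₀ c]
        exact h2
    rw [h1, ← Fintype.card_subtype, DomMulAct.stabilizer_card]
    rw [Finset.prod_congr rfl (fun i _ => by
      rw [Fintype.card_subtype, card_snd])]
    simp
  · rw [Finset.card_eq_zero, Finset.filter_eq_empty_iff]
    intro σ _ hσ
    apply h
    rw [← hσ, ex_perm (fun c : Fin (p - 1) × Fin n => c.2) σ, ex_snd]

/-- row PCO -/
theorem pco : PCOStmt := by
  intro p _ K _ _ n M hM
  classical
  have h1 : Matrix.permanent (Matrix.of (fun (r c : Fin (p - 1) × Fin n) => M r.2 c)) =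
      (((p - 1).factorial ^ n : ℕ) : K) *
        lam p (prodm ((Finset.univ : Finset (Fin (p - 1) × Fin n)).val.map (fun c r => M r c))) := by
    rw [lam_expand, Matrix.permanent, Finset.mul_sum]
    have h2 : ∑ σ : Equiv.Perm (Fin (p - 1) × Fin n),
        ∏ i, (Matrix.of (fun (r c : Fin (p - 1) × Fin n) => M r.2 c)) (σ i) i =
        ∑ σ : Equiv.Perm (Fin (p - 1) × Fin n),
          (fun φ : Fin (p - 1) × Fin n → Fin n => ∏ i, M (φ i) i) (fun c => (σ c).2) := rfl
    rw [h2, ← Finset.sum_fiberwise (univ : Finset (Equiv.Perm (Fin (p - 1) × Fin n)))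
      (fun σ c => (σ c).2)]
    refine sum_congr rfl (fun φ _ => ?_)
    rw [Finset.sum_congr rfl (g := fun _ => ∏ i, M (φ i) i) (fun σ hσ => by
      rw [(mem_filter.1 hσ).2])]
    rw [Finset.sum_const, count_perm, nsmul_eq_mul]
    split_ifs
    · rfl
    · simp
  rw [h1]
  refine mul_ne_zero ?_ hM
  rw [Nat.cast_pow]
  refine pow_ne_zero _ ?_
  rw [Ne, CharP.cast_eq_zero_iff K p, (Fact.out : p.Prime).dvd_factorial]
  have := (Fact.out : p.Prime).pos
  omega

end Pool.Agent.ATB.H69P
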